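import Pool.Agent.H37.DL.Defs

/-! # Auxiliary lemmas for the structure of the directed landscape -/

open MeasureTheory ProbabilityTheory Filter Topology Set
open scoped ENNReal

namespace Pool.Agent.H88.DL

open Pool.Agent.H37.DL

/-- the maximum of a continuous function is the supremum over the rationals -/
lemma iSup_rat {h : ℝ → ℝ} (hc : Continuous h) {M : ℝ} (hM : IsGreatest (Set.range h) M) :
    M = ⨆ z : ℚ, h z := by
  obtain ⟨⟨z0, hz0⟩, hub⟩ := hM
  have hle : ∀ z : ℝ, h z ≤ M := fun z => hub ⟨z, rfl⟩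
  have hbdd : BddAbove (Set.range fun z : ℚ => h z) := ⟨M, by rintro _ ⟨z, rfl⟩; exact hle _⟩
  apply le_antisymm
  · rw [← hz0]
    have hcl : z0 ∈ closure (Set.range ((↑) : ℚ → ℝ)) := Rat.denseRange_cast z0
    have hsub : Set.range ((↑) : ℚ → ℝ) ⊆ {z : ℝ | h z ≤ ⨆ z : ℚ, h z} := by
      rintro _ ⟨q, rfl⟩
      exact le_ciSup hbdd q
    have hclosed : IsClosed {z : ℝ | h z ≤ ⨆ z : ℚ, h z} := isClosed_le hc continuous_const
    exact closure_minimal hsub hclosed hcl
  · exact ciSup_le fun z => hle _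

/-- concatenation of the blocks `F i, F (i+1), …, F (i+m)` -/
noncomputable def cat (F : ℕ → ℝ × ℝ → ℝ) (i : ℕ) : ℕ → ℝ × ℝ → ℝ
  | 0, p => F i p
  | m + 1, p => ⨆ z : ℚ, (cat F i m (p.1, (z : ℝ)) + F (i + m + 1) ((z : ℝ), p.2))

lemma measurable_cat (i m : ℕ) (p : ℝ × ℝ) : Measurable fun F : ℕ → ℝ × ℝ → ℝ => cat F i m p := by
  induction m generalizing p with
  | zero => exact (measurable_pi_apply p).comp (measurable_pi_apply i)
  | succ m ih =>
    unfold cat
    exact Measurable.iSup fun z =>
      (ih _).add ((measurable_pi_apply _).comp (measurable_pi_apply (i + m + 1)))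

lemma cat_congr {F G : ℕ → ℝ × ℝ → ℝ} {i m : ℕ} (h : ∀ j, i ≤ j → j ≤ i + m → F j = G j)
    (p : ℝ × ℝ) : cat F i m p = cat G i m p := by
  induction m generalizing p with
  | zero =>
    unfold cat
    rw [h i le_rfl (by omega)]
  | succ m ih =>
    unfold cat
    congr 1
    funext z
    rw [ih (fun j h1 h2 => h j h1 (by omega)), h (i + m + 1) (by omega) (by omega)]

/-- every finite set of times is part of an increasing sequence -/
lemma exists_times (T : Finset ℝ) : ∃ (n : ℕ) (τ : ℕ → ℝ), StrictMono τ ∧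
    (∀ t ∈ T, ∃ i < n, τ i = t) ∧ ∀ i < n, τ i ∈ T := by
  induction T using Finset.induction_on_max with
  | empty =>
    refine ⟨0, fun i => (i : ℝ), ?_, by simp, by simp⟩
    intro i j hij
    show (i : ℝ) < (j : ℝ)
    exact_mod_cast hij
  | insert a S hmax ih =>
    obtain ⟨n, τ, hτ, h1, h2⟩ := ih
    refine ⟨n + 1, fun i => if i < n then τ i else a + ((i : ℝ) - n), ?_, ?_, ?_⟩
    · apply strictMono_nat_of_lt_succ
      intro i
      by_cases hi : i + 1 < n
      · simp only [if_pos hi, if_pos (show i < n by omega)]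
        exact hτ (Nat.lt_succ_self i)
      · by_cases hi' : i < n
        · simp only [if_neg hi, if_pos hi']
          have h3 := hmax _ (h2 i hi')
          have h4 : (n : ℝ) ≤ (i + 1 : ℕ) := by exact_mod_cast not_lt.1 hi
          linarith
        · simp only [if_neg hi, if_neg hi']
          push_cast
          linarith
    · intro t ht
      rcases Finset.mem_insert.1 ht with rfl | ht
      · exact ⟨n, by omega, by simp⟩
      · obtain ⟨i, hi, hit⟩ := h1 t ht
        exact ⟨i, by omega, by simp only [if_pos hi]; exact hit⟩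
    · intro i hi
      by_cases hi' : i < n
      · simp only [if_pos hi']
        exact Finset.mem_insert_of_mem (h2 i hi')
      · have : i = n := by omega
        simp [this]

variable {Ω : Type*} [MeasurableSpace Ω] {P : Measure Ω} {L : Ω → ℝ → ℝ → ℝ → ℝ → ℝ}

lemma cont_right (hL : IsDirectedLandscape P L) (ω : Ω) (x : ℝ) {s t : ℝ} (hst : s < t) :
    Continuous fun y => L ω x s y t := by
  have h := hL.cont ω
  have h2 : Continuous fun y : ℝ => ((x, s, y, t) : ℝ × ℝ × ℝ × ℝ) := by fun_prop
  exact h.comp_continuous h2 fun y => hst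

lemma cont_left (hL : IsDirectedLandscape P L) (ω : Ω) (y : ℝ) {s t : ℝ} (hst : s < t) :
    Continuous fun x => L ω x s y t := by
  have h := hL.cont ω
  have h2 : Continuous fun x : ℝ => ((x, s, y, t) : ℝ × ℝ × ℝ × ℝ) := by fun_prop
  exact h.comp_continuous h2 fun x => hst

/-- the values of the landscape are concatenations -/
lemma cat_eq (hL : IsDirectedLandscape P L) {τ : ℕ → ℝ} (hτ : StrictMono τ) :
    ∀ᵐ ω ∂P, ∀ (i m : ℕ) (x y : ℝ), L ω x (τ i) y (τ (i + m + 1)) =
      cat (fun j p => L ω p.1 (τ j) p.2 (τ (j + 1))) i m (x, y) := by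
  have h : ∀ᵐ ω ∂P, ∀ (i m : ℕ), ∀ x y,
      IsGreatest (Set.range fun z => L ω x (τ i) z (τ (i + m + 1)) +
        L ω z (τ (i + m + 1)) y (τ (i + m + 1 + 1))) (L ω x (τ i) y (τ (i + m + 1 + 1))) := by
    rw [ae_all_iff]
    intro i
    rw [ae_all_iff]
    intro m
    exact hL.comp _ _ _ (hτ (by omega)) (hτ (by omega))
  filter_upwards [h] with ω hω
  intro i m
  induction m with
  | zero => intro x y; rfl
  | succ m ih =>
    intro x y
    have h1 := iSup_rat ((cont_right hL ω x (hτ (show i < i + m + 1 by omega))).add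
      (cont_left hL ω y (hτ (show i + m + 1 < i + m + 1 + 1 by omega)))) (hω i m x y)
    have e : i + (m + 1) + 1 = i + m + 1 + 1 := by ring
    rw [e, h1]
    unfold cat
    congr 1
    funext z
    show L ω x (τ i) z (τ (i + m + 1)) + L ω z (τ (i + m + 1)) y (τ (i + m + 1 + 1)) = _
    rw [ih x z]

end Pool.Agent.H88.DL
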